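import Mathlib
import Pool.Agent.Helper62.Transfer

/-!
# Linear independence of the trivial links in the (4,infinity) skein module

If the trivial links are independent, then `b_∞ = 0` and the parameters satisfy the polynomial
equations of `Necessary`; over a domain they lie in one of the families `FamB`, `FamA`, `FamP`. In
the family `FamB`, and in the part `FamT` (`b_1 = b_2 = 0`) of the other two families, the trivial
links are independent over every commutative ring.
-/

set_option autoImplicit false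
set_option linter.unusedSimpArgs false

namespace Pool.Agent.Results.MP_115300_gt.TwoFamiliesLeft

open Polynomial
open Pool.Agent.Helper62.Skein Pool.Agent.Helper62.Transfer

/-! ### Definitions used in the statement -/

section Defs

variable {R : Type*} [CommRing R]

/-- The classes of the trivial links `T₀, T₁, T₂, …` are linearly independent over `R` in the
(4,infinity) skein module of the 3-sphere. -/
def Independent (a b0 b3 : Rˣ) (b1 b2 bi : R) : Prop :=
  LinearIndependent R fun i : ℕ => (relations R a b0 b3 b1 b2 bi).mkQ (link R (trivialLink i))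

/-- the equations which hold over every ring if the trivial links are independent -/
def Necessary (a b0 b1 b2 b3 bi : R) : Prop :=
  bi = 0 ∧ b0 * b1 = b2 * b3 ∧ a ^ 3 * b0 + a ^ 2 * b1 + a * b2 + b3 = 0 ∧
    b0 * (b0 + a ^ 2 * b2) = b3 * (b1 + a ^ 2 * b3) ∧
    (a * b0 ^ 3 + b3 ^ 3) * (a ^ 4 - 1) = 0 ∧
    (a * b0 ^ 3 + b3 ^ 3) * (b0 + a ^ 2 * b2) = 0 ∧
    (a * b0 ^ 3 + b3 ^ 3) * (b3 + a ^ 2 * b1) = 0

/-- The relation is a combination of `L₂ - a² L₀` and `L₃ - a² L₁`, with `a ^ 4 = 1`. -/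
def FamB (a b0 b1 b2 b3 : R) : Prop :=
  a ^ 4 = 1 ∧ b1 = -(a ^ 2 * b3) ∧ b2 = -(a ^ 2 * b0)

/-- The relation is `b₀ (L₀ + u L₃) + b₂ (L₂ + u L₁)` with `u ^ 4 = 1` and `a = - u ^ 3`. -/
def FamA (a b0 b1 b2 b3 : R) : Prop :=
  ∃ u, u ^ 4 = 1 ∧ a = -u ^ 3 ∧ b1 = u * b2 ∧ b3 = u * b0

/-- The relation is `b₀ (L₀ + (u³ + u⁻¹) L₁ + (u² + u⁻²) L₂ + u L₃)`, with `a = - u ^ 3`. -/
def FamP (a b0 b1 b2 b3 : R) : Prop :=
  ∃ u, a = -u ^ 3 ∧ b3 = u * b0 ∧ u * b1 = (u ^ 4 + 1) * b0 ∧ u ^ 2 * b2 = (u ^ 4 + 1) * b0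

/-- The relation is `b₃ (L₃ - a⁵ L₀)`, with `a ^ 8 = 1`. -/
def FamT (a b0 b1 b2 b3 : R) : Prop :=
  b1 = 0 ∧ b2 = 0 ∧ a ^ 8 = 1 ∧ b0 = -(a ^ 5 * b3)

end Defs

section Nec

variable {R : Type*} [CommRing R] {a b0 b3 : Rˣ} {b1 b2 bi : R}

theorem pair (h : Independent a b0 b3 b1 b2 bi) {r s : R}
    (e : r • T1 a b0 b3 b1 b2 bi + s • T2 a b0 b3 b1 b2 bi = 0) : r = 0 ∧ s = 0 := by
  have hinj : Function.Injective (![1, 2] : Fin 2 → ℕ) := by decide
  have h2 := h.comp (![1, 2] : Fin 2 → ℕ) hinj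
  have h3 := Fintype.linearIndependent_iff.1 h2 ![r, s] (by
    rw [Fin.sum_univ_two]
    exact e)
  exact ⟨h3 0, h3 1⟩

theorem necessary (h : Independent a b0 b3 b1 b2 bi) :
    Necessary (a : R) (b0 : R) b1 b2 (b3 : R) bi := by
  have cancel : ∀ (u : Rˣ) {x : R}, (u : R) * x = 0 → x = 0 := fun u x hx =>
    (Units.mul_right_eq_zero u).1 hx
  obtain ⟨p1, p2⟩ := pair h (p1_rel a b0 b3 b1 b2 bi)
  have hbi : bi = 0 := cancel (a ^ 3) (by push_cast; exact p2)
  subst hbi
  have H1 := hopf_rel1 a b0 b3 b1 b2 (0 : R)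
  have H2 := hopf_rel2 a b0 b3 b1 b2 (0 : R)
  have N := new_rel_N a b0 b3 b1 b2 (0 : R)
  have D := new_rel_D a b0 b3 b1 b2 (0 : R)
  have M := new_rel_neg a b0 b3 b1 b2 (0 : R)
  obtain ⟨e1, e2⟩ := pair h (r := (b0 : R) * (b0 + a ^ 2 * b2) - b3 * (b1 + a ^ 2 * b3))
    (s := (a : R) * (b0 * b1 - b2 * b3)) (by
      linear_combination (norm := module) (b0 : R) • H1 - (b3 : R) • H2)
  have hb : (b0 : R) * b1 - b2 * b3 = 0 := cancel a e2
  obtain ⟨n1, n2⟩ := pair h (r := ((a : R) * b0 ^ 3 + b3 ^ 3) * (a : R) ^ 2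
      + (a * ((a : R) * b0 ^ 2 * b1 - a * b0 * b2 * b3)
        + ((a : R) * b0 ^ 2 * b2 + b1 * b3 ^ 2)))
    (s := (a : R) * (- b0 * b1 * b3 + b2 * b3 ^ 2)) (by
      linear_combination (norm := module) N)
  obtain ⟨d1, d2⟩ := pair h (r := ((a : R) * b0 ^ 3 + b3 ^ 3)
      + (a ^ 2 * ((a : R) * b0 ^ 2 * b2 + b1 * b3 ^ 2)
        + a * (- b0 * b1 * b3 + b2 * b3 ^ 2)))
    (s := (a : R) * ((a : R) * b0 ^ 2 * b1 - a * b0 * b2 * b3)) (by
      linear_combination (norm := module) D)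
  obtain ⟨m1, m2⟩ := pair h (r := (b3 : R) * ((a : R) ^ 2 * ((a : R) * b0 ^ 2 * b1 - a * b0 * b2 * b3)
        + (- b0 * b1 * b3 + b2 * b3 ^ 2))
        - ((a : R) * b0 ^ 2 * b2 + b1 * b3 ^ 2) * (b0 + a ^ 2 * b2))
    (s := (a : R) * (b3 * (a * b0 ^ 3 + b3 ^ 3) - ((a : R) * b0 ^ 2 * b2 + b1 * b3 ^ 2) * b1)) (by
      linear_combination (norm := module) (b3 : R) • M - ((a : R) * b0 ^ 2 * b2 + b1 * b3 ^ 2) • H1)
  obtain ⟨l1, l2⟩ := pair h (r := (b0 : R) * ((a : R) ^ 2 * ((a : R) * b0 ^ 2 * b1 - a * b0 * b2 * b3)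
        + (- b0 * b1 * b3 + b2 * b3 ^ 2))
        - ((a : R) * b0 ^ 2 * b2 + b1 * b3 ^ 2) * (b1 + a ^ 2 * b3))
    (s := (a : R) * (b0 * (a * b0 ^ 3 + b3 ^ 3) - ((a : R) * b0 ^ 2 * b2 + b1 * b3 ^ 2) * b2)) (by
      linear_combination (norm := module) (b0 : R) • M - ((a : R) * b0 ^ 2 * b2 + b1 * b3 ^ 2) • H2)
  have m2' := cancel a m2
  have l2' := cancel a l2
  have cm : (a : R) * b0 ^ 2 * b2 + b1 * b3 ^ 2 = -(a ^ 2 * (a * b0 ^ 3 + b3 ^ 3)) := by
    linear_combination n1 - (a : R) ^ 2 * b0 * hb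
  have c4 : ((a : R) * b0 ^ 3 + b3 ^ 3) * (a ^ 4 - 1) = 0 := by
    linear_combination (a : R) ^ 2 * cm - d1 - (a : R) * b3 * hb
  refine ⟨rfl, by linear_combination hb, p1, by linear_combination e1, c4, ?_, ?_⟩
  · linear_combination l2' + b2 * cm
  · linear_combination m2' + b1 * cm

end Nec

section Suf

variable {R : Type*} [CommRing R]

theorem w_pow {A B : List (ℕ × Piece)} {n k : ℕ} (hA : width 0 A = some n)
    (hB : width n B = some 0) (hk : k + 2 ≤ n) :
    width n [(k, Piece.pos)] = some n ∧ width n [(k, Piece.pos), (k, Piece.pos)] = some n ∧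
      width n [(k, Piece.pos), (k, Piece.pos), (k, Piece.pos)] = some n ∧
      width 0 (A ++ B) = some 0 := by
  refine ⟨?_, ?_, ?_, ?_⟩
  · have : n - 2 + 2 = n := by omega
    simp [width, Piece.low, Piece.high, hk, this]
  · simp [width, Piece.low, Piece.high]; omega
  · simp [width, Piece.low, Piece.high]; omega
  · rw [width_append, hA]; simp [hB]

theorem indep_B {a b0 b3 : Rˣ} {b1 b2 : R} (h : FamB (a : R) (b0 : R) b1 b2 (b3 : R)) :
    Independent a b0 b3 b1 b2 0 := by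
  obtain ⟨h4, hb1, hb2⟩ := h
  obtain ⟨P, hP, hT⟩ := two_invariant (a : R) h4
  have two : ∀ (A B : List (ℕ × Piece)) (n k : ℕ), width 0 A = some n → width n B = some 0 →
      k + 2 ≤ n → ext (R := R) P (link R (A ++ [(k, Piece.pos), (k, Piece.pos)] ++ B))
        = (a : R) ^ 2 • ext (R := R) P (link R (A ++ B)) := by
    intro A B n k hA hB hk
    obtain ⟨-, w2, -, c0⟩ := w_pow hA hB hk
    have c2 := closed_of hA w2 hB
    rw [ext_link P c0, ext_link P c2]
    have e := hP _ _ _ (MoveRel.twist (X := [(0, Piece.pos), (0, Piece.pos)]) (e := 2)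
      A B n k hA hB hk c2 c0)
    exact e
  refine independent_of_invariant P (relations_le_ker _ _ _ _ _ _ P ?_ ?_) hT
  · intro A B n k hA hB hk
    obtain ⟨w1, w2, w3, c0⟩ := w_pow hA hB hk
    have hA' : width 0 (A ++ [(k, Piece.pos)]) = some n := by
      rw [width_append, hA]; exact w1
    have e0 := two A B n k hA hB hk
    have e1 := two (A ++ [(k, Piece.pos)]) B n k hA' hB hk
    have e2 : A ++ [(k, Piece.pos), (k, Piece.pos), (k, Piece.pos)] ++ B
        = A ++ [(k, Piece.pos)] ++ [(k, Piece.pos), (k, Piece.pos)] ++ B := by simp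
    rw [e2, e1, e0, hb1, hb2]
    have h4' : (a : R) ^ 4 = 1 := h4
    simp only [smul_smul, zero_smul, add_zero]
    rw [show -((a : R) ^ 2 * b0) * a ^ 2 = -b0 by linear_combination -(b0 : R) * h4',
      show (b3 : R) * a ^ 2 = a ^ 2 * b3 by ring]
    module
  · intro A B n k hA hB hk
    have w1 : width n [(k + 1, Piece.cup), (k, Piece.pos), (k + 1, Piece.cap)] = some n := by
      simp [width, Piece.low, Piece.high]; omega
    have c0 : width 0 (A ++ B) = some 0 := by rw [width_append, hA]; simp [hB]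
    have c1 := closed_of hA w1 hB
    rw [ext_link P c0, ext_link P c1]
    have e := hP _ _ _ (MoveRel.curl A B n k hA hB hk c1 c0)
    have h1' : (1 : ZMod 4).val = 1 := rfl
    rw [h1', pow_one] at e
    exact e

theorem indep_T {a b0 b3 : Rˣ} {b1 b2 : R} (h : FamT (a : R) (b0 : R) b1 b2 (b3 : R)) :
    Independent a b0 b3 b1 b2 0 := by
  obtain ⟨hb1, hb2, h8, hb0⟩ := h
  obtain ⟨P, hP, hT⟩ := three_invariant (a : R) h8
  refine independent_of_invariant P (relations_le_ker _ _ _ _ _ _ P ?_ ?_) hT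
  · intro A B n k hA hB hk
    obtain ⟨w1, w2, w3, c0⟩ := w_pow hA hB hk
    have c3 := closed_of hA w3 hB
    rw [hb1, hb2]
    simp only [zero_smul, add_zero]
    rw [ext_link P c0, ext_link P c3]
    have e3 : P (mkLink _ c3) = (a : R) ^ 5 • P (mkLink _ c0) :=
      hP _ _ _ (MoveRel.twist (X := [(0, Piece.pos), (0, Piece.pos), (0, Piece.pos)]) (e := 5)
        A B n k hA hB hk c3 c0)
    rw [e3, hb0, smul_smul, ← add_smul]
    rw [show -((a : R) ^ 5 * b3) + b3 * a ^ 5 = 0 by ring, zero_smul]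
  · intro A B n k hA hB hk
    have w1 : width n [(k + 1, Piece.cup), (k, Piece.pos), (k + 1, Piece.cap)] = some n := by
      simp [width, Piece.low, Piece.high]; omega
    have c0 : width 0 (A ++ B) = some 0 := by rw [width_append, hA]; simp [hB]
    have c1 := closed_of hA w1 hB
    rw [ext_link P c0, ext_link P c1]
    have e := hP _ _ _ (MoveRel.curl A B n k hA hB hk c1 c0)
    have h1' : (1 : ZMod 8).val = 1 := rfl
    rw [h1', pow_one] at e
    exact e

end Suf

section Domain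

variable {R : Type*} [CommRing R] [IsDomain R] {a b0 b3 : Rˣ} {b1 b2 : R}

theorem families (h : Necessary (a : R) (b0 : R) b1 b2 (b3 : R) 0) :
    FamB (a : R) (b0 : R) b1 b2 (b3 : R) ∨ FamA (a : R) (b0 : R) b1 b2 (b3 : R) ∨
      FamP (a : R) (b0 : R) b1 b2 (b3 : R) := by
  obtain ⟨-, h1, h2, h3, h4, h5, h6⟩ := h
  have hb0 : (b0 : R) ≠ 0 := b0.ne_zero
  by_cases hc : (a : R) * b0 ^ 3 + b3 ^ 3 = 0
  · right
    obtain ⟨u, hu⟩ : ∃ u : R, u = (b3 * b0⁻¹ : Rˣ) := ⟨_, rfl⟩
    have hb3 : (b3 : R) = u * b0 := by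
      rw [hu]; simp
    have ha : (a : R) = -u ^ 3 := by
      rw [hb3] at hc
      have : (b0 : R) ^ 3 * (a + u ^ 3) = 0 := by linear_combination hc
      rcases mul_eq_zero.1 this with h | h
      · exact absurd h (pow_ne_zero 3 hb0)
      · linear_combination h
    have hb1 : b1 = u * b2 := by
      rw [hb3] at h1
      apply mul_left_cancel₀ hb0
      linear_combination h1
    have key : (b0 : R) * ((1 - u ^ 4) * ((u ^ 4 + 1) * b0 - u ^ 2 * b2)) = 0 := by
      rw [hb3, hb1, ha] at h3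
      linear_combination h3
    rcases mul_eq_zero.1 key with h | h
    · exact absurd h hb0
    rcases mul_eq_zero.1 h with h | h
    · left
      exact ⟨u, by linear_combination -h, ha, hb1, hb3⟩
    · right
      refine ⟨u, ha, hb3, ?_, by linear_combination -h⟩
      rw [hb1]
      linear_combination -h
  · left
    have e4 := (mul_eq_zero.1 h4).resolve_left hc
    have e5 := (mul_eq_zero.1 h5).resolve_left hc
    have e6 := (mul_eq_zero.1 h6).resolve_left hc
    refine ⟨by linear_combination e4, ?_, ?_⟩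
    · linear_combination (a : R) ^ 2 * e6 - b1 * e4
    · linear_combination (a : R) ^ 2 * e5 - b2 * e4

theorem famT_of (h : Necessary (a : R) (b0 : R) b1 b2 (b3 : R) 0) (h0 : b1 = 0 ∨ b2 = 0) :
    FamT (a : R) (b0 : R) b1 b2 (b3 : R) := by
  have hb0 : (b0 : R) ≠ 0 := b0.ne_zero
  have hb3 : (b3 : R) ≠ 0 := b3.ne_zero
  have ha0 : (a : R) ≠ 0 := a.ne_zero
  have hb : b1 = 0 ∧ b2 = 0 := by
    have h1 := h.2.1
    rcases h0 with h0 | h0
    · refine ⟨h0, ?_⟩
      rw [h0, mul_zero] at h1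
      exact (mul_eq_zero.1 h1.symm).resolve_right hb3
    · refine ⟨?_, h0⟩
      rw [h0, zero_mul] at h1
      exact (mul_eq_zero.1 h1).resolve_left hb0
  obtain ⟨hb1, hb2⟩ := hb
  refine ⟨hb1, hb2, ?_⟩
  rcases families h with ⟨-, h1, -⟩ | ⟨u, hu, ha, -, h3⟩ | ⟨u, ha, h3, h1, -⟩
  · exfalso
    rw [hb1] at h1
    have : (a : R) ^ 2 * b3 = 0 := by linear_combination h1
    rcases mul_eq_zero.1 this with h | h
    · exact ha0 (pow_eq_zero_iff (two_ne_zero)|>.1 h)
    · exact hb3 h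
  · rw [ha, h3]
    constructor
    · linear_combination (u ^ 20 + u ^ 16 + u ^ 12 + u ^ 8 + u ^ 4 + 1) * hu
    · linear_combination -(b0 : R) * (u ^ 12 + u ^ 8 + u ^ 4 + 1) * hu
  · rw [hb1, mul_zero] at h1
    have hu : u ^ 4 + 1 = 0 := (mul_eq_zero.1 h1.symm).resolve_right hb0
    rw [ha, h3]
    constructor
    · linear_combination (u ^ 20 - u ^ 16 + u ^ 12 - u ^ 8 + u ^ 4 - 1) * hu
    · linear_combination -(b0 : R) * (u ^ 12 - u ^ 8 + u ^ 4 - 1) * hu

end Domain

/-- **Linear independence of the trivial links in the (4,infinity) skein module.** (1) equations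
which are necessary over every commutative ring; (2) two families in which the trivial links are
independent, over every commutative ring; (3) the complete answer if `a b₀³ + b₃³` is not a zero
divisor; (4) over a domain, the necessary conditions amount to three families, and the answer is
complete for `b₁ = 0` or `b₂ = 0`. -/
theorem result {R : Type*} [CommRing R] (a b0 b3 : Rˣ) (b1 b2 bi : R) :
    (Independent a b0 b3 b1 b2 bi → Necessary (a : R) (b0 : R) b1 b2 (b3 : R) bi) ∧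
    (bi = 0 → FamB (a : R) (b0 : R) b1 b2 (b3 : R) ∨ FamT (a : R) (b0 : R) b1 b2 (b3 : R) →
      Independent a b0 b3 b1 b2 bi) ∧
    ((a : R) * b0 ^ 3 + b3 ^ 3 ∈ nonZeroDivisors R →
      (Independent a b0 b3 b1 b2 bi ↔ bi = 0 ∧ FamB (a : R) (b0 : R) b1 b2 (b3 : R))) ∧
    (IsDomain R →
      (Independent a b0 b3 b1 b2 bi → bi = 0 ∧ (FamB (a : R) (b0 : R) b1 b2 (b3 : R) ∨
        FamA (a : R) (b0 : R) b1 b2 (b3 : R) ∨ FamP (a : R) (b0 : R) b1 b2 (b3 : R))) ∧
      (b1 = 0 ∨ b2 = 0 →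
        (Independent a b0 b3 b1 b2 bi ↔ bi = 0 ∧ FamT (a : R) (b0 : R) b1 b2 (b3 : R)))) := by
  refine ⟨necessary, ?_, ?_, ?_⟩
  · rintro rfl (h | h)
    · exact indep_B h
    · exact indep_T h
  · intro hc
    constructor
    · intro h
      obtain ⟨h0, -, -, -, h4, h5, h6⟩ := necessary h
      have e4 := (mul_right_mem_nonZeroDivisors_eq_zero_iff hc).1 (by
        rw [mul_comm]; exact h4)
      have e5 := (mul_right_mem_nonZeroDivisors_eq_zero_iff hc).1 (by
        rw [mul_comm]; exact h5)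
      have e6 := (mul_right_mem_nonZeroDivisors_eq_zero_iff hc).1 (by
        rw [mul_comm]; exact h6)
      refine ⟨h0, by linear_combination e4, ?_, ?_⟩
      · linear_combination (a : R) ^ 2 * e6 - b1 * e4
      · linear_combination (a : R) ^ 2 * e5 - b2 * e4
    · rintro ⟨rfl, h⟩
      exact indep_B h
  · intro hR
    constructor
    · intro h
      have h1 := necessary h
      have h0 : bi = 0 := h1.1
      subst h0
      exact ⟨rfl, families h1⟩
    · intro hb
      constructor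
      · intro h
        have h1 := necessary h
        have h0 : bi = 0 := h1.1
        subst h0
        exact ⟨rfl, famT_of h1 hb⟩
      · rintro ⟨rfl, h⟩
        exact indep_T h

end Pool.Agent.Results.MP_115300_gt.TwoFamiliesLeft
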